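import Mathlib
import Pool.Agent.H469R2.NK.KL

/-!
# The Gauss circle problem for lattice points with small independent displacements: statements

Project NG (seat helper180). `S_X` is the statement of package `X`; the package `X` is the theorem
`t_X : S_... → S_X` in the file `Pool/Agent/<seat>/NG/X.lean` of the prover.
-/

set_option autoImplicit false

open MeasureTheory ProbabilityTheory Filter Topology
open Pool.Agent.H469R2.NK (e)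

namespace Pool.Agent.U180.NG

/-! ### The model -/

/-- The law of a displacement: the law of `(U, 0) + Y`, where `U` is uniform in `[0, δ]` and the
vector `Y` has the law `μ` and is independent of `U`. -/
noncomputable def noiseLaw (δ : ℝ) (μ : Measure (ℝ × ℝ)) : Measure (ℝ × ℝ) :=
  (((ENNReal.ofReal δ)⁻¹ • volume.restrict (Set.Icc 0 δ)).prod μ).map fun p => (p.1 + p.2.1, p.2.2)

/-- The number of the displaced lattice points `z + ξ z` in the closed disc of radius `R`. -/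
noncomputable def count (ξ : ℤ × ℤ → ℝ × ℝ) (R : ℝ) : ℕ :=
  {z : ℤ × ℤ | ((z.1 : ℝ) + (ξ z).1) ^ 2 + ((z.2 : ℝ) + (ξ z).2) ^ 2 ≤ R ^ 2}.ncard

/-- The displacements `ξ z`, `z ∈ ℤ²`, are independent and have the law `noiseLaw δ μ`, where
`0 < δ ≤ 1` and `μ` is a probability measure on the square `[-ρ, ρ]²`. -/
structure IsNoise {Ω : Type} [MeasurableSpace Ω] (P : Measure Ω) (δ ρ : ℝ) (μ : Measure (ℝ × ℝ))
    (ξ : ℤ × ℤ → Ω → ℝ × ℝ) : Prop where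
  pos : 0 < δ
  le_one : δ ≤ 1
  prob : IsProbabilityMeasure μ
  supp : ∀ᵐ y ∂μ, |y.1| ≤ ρ ∧ |y.2| ≤ ρ
  meas : ∀ z, Measurable (ξ z)
  indep : iIndepFun ξ P
  law : ∀ z, P.map (ξ z) = noiseLaw δ μ

/-! ### Analysis -/

/-- the rows: the integers `m` with `|m + y| ≤ R` -/
noncomputable def rows (R y : ℝ) : Finset ℤ := Finset.Icc ⌈-R - y⌉ ⌊R - y⌋

/-- half of the length of the row `m` of the disc -/
noncomputable def hl (R y : ℝ) (m : ℤ) : ℝ := Real.sqrt (R ^ 2 - (m + y) ^ 2)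

/-- the second periodic Bernoulli function -/
noncomputable def b2 (x : ℝ) : ℝ := Int.fract x ^ 2 - Int.fract x + 1 / 6

/-- Second derivative test (van der Corput), discrete form, for sequences with decreasing
differences. -/
def S_VDC : Prop := ∀ (x : ℕ → ℝ) (N : ℕ) (lam D u : ℝ), 0 < lam → 0 ≤ D →
  (∀ n, n + 2 < N → lam ≤ (x (n + 1) - x n) - (x (n + 2) - x (n + 1))) →
  (∀ n, n + 1 < N → u ≤ x (n + 1) - x n ∧ x (n + 1) - x n ≤ u + D) →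
  ‖∑ n ∈ Finset.range N, e (x n)‖ ≤ 10 * (D + 2) * (1 / Real.sqrt lam + 1)

/-- One dyadic block of the circle: the points `a, a + 1, ..., a + N - 1` have distance in
`[T, 2T]` from the edge `R`. -/
def S_BLK : Prop := ∀ (k N : ℕ) (R T a : ℝ), 1 ≤ k → 1 ≤ T → T ≤ R → 0 ≤ a → R - 2 * T ≤ a →
  a + N ≤ R - T + 1 →
  ‖∑ n ∈ Finset.range N, e (k * Real.sqrt (R ^ 2 - (a + n) ^ 2))‖ ≤
    10 * (k * Real.sqrt (R / T) + 2) * (3 * T ^ (3 / 4 : ℝ) / (Real.sqrt k * R ^ (1 / 4 : ℝ)) + 1)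

/-- One half of the circle. -/
def S_HALF : Prop := ∃ C : ℝ, 0 < C ∧ ∀ (k N : ℕ) (R a : ℝ), 1 ≤ k → 1 ≤ R → 0 ≤ a →
  a + N ≤ R + 1 →
  ‖∑ n ∈ Finset.range N, e (k * Real.sqrt (R ^ 2 - (a + n) ^ 2))‖ ≤ C * Real.sqrt (k * R)

/-- Exponential sums over a circle. -/
def S_EXP : Prop := ∃ C : ℝ, 0 < C ∧ ∀ (k : ℕ) (R y : ℝ), 1 ≤ k → 1 ≤ R →
  ‖∑ m ∈ rows R y, e (k * hl R y m)‖ ≤ C * Real.sqrt (k * R)

/-- Sums of the Bernoulli function over a circle. -/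
def S_B2 : Prop := ∃ C : ℝ, 0 < C ∧ ∀ R y c : ℝ, 1 ≤ R →
  |∑ m ∈ rows R y, b2 (hl R y m + c)| ≤ C * Real.sqrt R

/-- Euler-Maclaurin for the lengths of the rows of a disc. -/
def S_EM : Prop := ∃ C : ℝ, 0 < C ∧ ∀ R y : ℝ, 1 ≤ R →
  |∑ m ∈ rows R y, 2 * hl R y m - Real.pi * R ^ 2| ≤ C * Real.sqrt R

/-- the square of side `2 B` -/
noncomputable def box (B : ℕ) : Finset (ℤ × ℤ) :=
  Finset.Icc (-(B : ℤ)) B ×ˢ Finset.Icc (-(B : ℤ)) B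

/-- The probability that `z + y + (U, 0)` is in the disc of radius `R`, `U` uniform in `[0, δ]`. -/
noncomputable def phi (δ R : ℝ) (y : ℝ × ℝ) (z : ℤ × ℤ) : ℝ :=
  (volume {t : ℝ | t ∈ Set.Icc 0 δ ∧ ((z.1 : ℝ) + (t + y.1)) ^ 2 + ((z.2 : ℝ) + y.2) ^ 2 ≤ R ^ 2}).toReal
    / δ

/-- the length of `[0, δ] ∩ (-∞, x]` -/
noncomputable def clamp (δ x : ℝ) : ℝ := min δ (max 0 x)

/-- Sums of the function `clamp` over the integers. -/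
def S_ROWF : Prop := ∀ (δ x : ℝ) (B : ℕ), 0 < δ → δ ≤ 1 → |x| ≤ B - 1 →
  ∑ n ∈ Finset.Icc (-(B : ℤ)) B, clamp δ (x - n) =
    δ * (x + B + 1 / 2) - δ ^ 2 / 2 + (b2 (x - δ) - b2 x) / 2

/-- The function `phi` in a row. -/
def S_PHI : Prop := ∀ (δ R : ℝ) (y : ℝ × ℝ) (z : ℤ × ℤ), 0 < δ → 0 ≤ R →
  0 ≤ phi δ R y z ∧ phi δ R y z ≤ 1 ∧ (R < |(z.2 : ℝ) + y.2| → phi δ R y z = 0) ∧
  (|(z.2 : ℝ) + y.2| ≤ R → phi δ R y z =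
    (clamp δ (hl R y.2 z.2 - y.1 - z.1) - clamp δ (-hl R y.2 z.2 - y.1 - z.1)) / δ)

/-- The mean number of points, for a fixed vector `y`. -/
def S_MEANY : Prop := ∃ C : ℝ, 0 < C ∧ ∀ (δ R : ℝ) (y : ℝ × ℝ) (B : ℕ), 0 < δ → δ ≤ 1 → 1 ≤ R →
  R + |y.1| + |y.2| + 2 ≤ B → |∑ z ∈ box B, phi δ R y z - Real.pi * R ^ 2| ≤ C * Real.sqrt R / δ

/-- The tent function in terms of the Bernoulli function. -/
def S_TENT : Prop := ∀ δ x : ℝ, 0 < δ → δ ≤ 1 →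
  δ / 8 - (b2 x - 2 * b2 (x - δ / 2) + b2 (x - δ)) / (4 * δ) ≤
    (clamp δ (Int.fract x) / δ) * (1 - clamp δ (Int.fract x) / δ)

/-- The variance of the number of points, for a fixed vector `y`. -/
def S_VARY : Prop := ∀ δ : ℝ, 0 < δ → δ ≤ 1 → ∃ c R₀ : ℝ, 0 < c ∧ ∀ (R : ℝ) (y : ℝ × ℝ) (B : ℕ),
  R₀ ≤ R → R + |y.1| + |y.2| + 2 ≤ B → c * R ≤ ∑ z ∈ box B, phi δ R y z * (1 - phi δ R y z)

/-- the lattice points of the square whose distance to the circle of radius `R` is at most `r` -/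
noncomputable def ann (r R : ℝ) (B : ℕ) : Finset (ℤ × ℤ) :=
  (box B).filter fun z => |Real.sqrt ((z.1 : ℝ) ^ 2 + (z.2 : ℝ) ^ 2) - R| ≤ r

/-- There are `O(R)` lattice points in an annulus of constant width. -/
def S_ANN : Prop := ∀ r : ℝ, 0 ≤ r → ∃ A : ℝ, 0 < A ∧ ∀ (R : ℝ) (B : ℕ), 1 ≤ R →
  ((ann r R B).card : ℝ) ≤ A * R

/-! ### Probability -/

/-- The set of the displacements which put the lattice point `z` into the disc. -/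
def disc (R : ℝ) (z : ℤ × ℤ) : Set (ℝ × ℝ) :=
  {x | ((z.1 : ℝ) + x.1) ^ 2 + ((z.2 : ℝ) + x.2) ^ 2 ≤ R ^ 2}

/-- The indicator function of the event that the displaced lattice point is in the disc. -/
noncomputable def ind {Ω : Type} (ξ : ℤ × ℤ → Ω → ℝ × ℝ) (R : ℝ) (z : ℤ × ℤ) (ω : Ω) : ℝ :=
  (disc R z).indicator (fun _ => (1 : ℝ)) (ξ z ω)

/-- The probability that the displaced lattice point is in the disc. -/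
def S_PZ : Prop := ∀ (δ : ℝ) (μ : Measure (ℝ × ℝ)), 0 < δ → IsProbabilityMeasure μ →
  IsProbabilityMeasure (noiseLaw δ μ) ∧ ∀ (R : ℝ) (z : ℤ × ℤ),
    (noiseLaw δ μ).real (disc R z) = ∫ y, phi δ R y z ∂μ ∧ Integrable (fun y => phi δ R y z) μ ∧
      Integrable (fun y => phi δ R y z ^ 2) μ

/-- The mean number of displaced points in the disc. -/
def S_MEANP : Prop := ∃ C : ℝ, 0 < C ∧ ∀ (δ ρ : ℝ) (μ : Measure (ℝ × ℝ)), 0 < δ → δ ≤ 1 →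
  IsProbabilityMeasure μ → (∀ᵐ y ∂μ, |y.1| ≤ ρ ∧ |y.2| ≤ ρ) → ∀ (R : ℝ) (B : ℕ), 1 ≤ R →
    R + 2 * ρ + 2 ≤ B →
    |∑ z ∈ box B, (noiseLaw δ μ).real (disc R z) - Real.pi * R ^ 2| ≤ C * Real.sqrt R / δ

/-- The variance of the number of displaced points in the disc. -/
def S_VARP : Prop := ∀ δ : ℝ, 0 < δ → δ ≤ 1 → ∃ c R₀ : ℝ, 0 < c ∧
  ∀ (ρ : ℝ) (μ : Measure (ℝ × ℝ)),
  IsProbabilityMeasure μ → (∀ᵐ y ∂μ, |y.1| ≤ ρ ∧ |y.2| ≤ ρ) → ∀ (R : ℝ) (B : ℕ), R₀ ≤ R →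
    R + 2 * ρ + 2 ≤ B → c * R ≤ ∑ z ∈ box B, (noiseLaw δ μ).real (disc R z) *
      (1 - (noiseLaw δ μ).real (disc R z))

/-- Tails of a sum of independent centred indicator functions whose variance is at least `1`. -/
def S_LOWA : Prop := ∀ (Ω ι : Type) [MeasurableSpace Ω] (P : Measure Ω), IsProbabilityMeasure P →
  ∀ (X : ι → Ω → ℝ) (S : Finset ι), (∀ i, Measurable (X i)) → iIndepFun X P →
    (∀ i ω, X i ω = 0 ∨ X i ω = 1) →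
    1 ≤ ∑ i ∈ S, (∫ ω, X i ω ∂P) * (1 - ∫ ω, X i ω ∂P) →
    (1 / 64 : ℝ) ≤ P.real {ω | Real.sqrt (∑ i ∈ S, (∫ ω, X i ω ∂P) *
      (1 - ∫ ω, X i ω ∂P)) / 8 ≤ ∑ i ∈ S, (X i ω - ∫ ω, X i ω ∂P)} ∧
    (1 / 64 : ℝ) ≤ P.real {ω | ∑ i ∈ S, (X i ω - ∫ ω, X i ω ∂P) ≤ -(Real.sqrt (∑ i ∈ S,
      (∫ ω, X i ω ∂P) * (1 - ∫ ω, X i ω ∂P)) / 8)}

/-- Lower bound for the upper and lower tails of sums of independent indicator functions. -/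
def S_LOW : Prop := ∀ (Ω ι : Type) [MeasurableSpace Ω] (P : Measure Ω), IsProbabilityMeasure P →
  ∀ (X : ι → Ω → ℝ) (S : Finset ι) (L : ℕ), (∀ i, Measurable (X i)) → iIndepFun X P →
    (∀ i ω, X i ω = 0 ∨ X i ω = 1) → 1 ≤ L →
    2 * (L : ℝ) ≤ ∑ i ∈ S, (∫ ω, X i ω ∂P) * (1 - ∫ ω, X i ω ∂P) →
    (1 / 64 : ℝ) ^ L ≤ P.real {ω | Real.sqrt (L * ∑ i ∈ S, (∫ ω, X i ω ∂P) *
      (1 - ∫ ω, X i ω ∂P)) / 12 ≤ ∑ i ∈ S, (X i ω - ∫ ω, X i ω ∂P)} ∧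
    (1 / 64 : ℝ) ^ L ≤ P.real {ω | ∑ i ∈ S, (X i ω - ∫ ω, X i ω ∂P) ≤ -(Real.sqrt (L * ∑ i ∈ S,
      (∫ ω, X i ω ∂P) * (1 - ∫ ω, X i ω ∂P)) / 12)}

/-- Hoeffding's inequality for indicator functions. -/
def S_HOEF : Prop := ∀ (Ω ι : Type) [MeasurableSpace Ω] (P : Measure Ω), IsProbabilityMeasure P →
  ∀ (X : ι → Ω → ℝ) (S : Finset ι) (A s : ℝ), (∀ i, Measurable (X i)) → iIndepFun X P →
    (∀ i ω, X i ω = 0 ∨ X i ω = 1) → 0 < A → (S.card : ℝ) ≤ A → 0 ≤ s →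
    P.real {ω | s ≤ |∑ i ∈ S, (X i ω - ∫ ω, X i ω ∂P)|} ≤ 2 * Real.exp (-2 * s ^ 2 / A)

/-- Almost surely the displacements are bounded, and the count is a finite sum. -/
def S_CNT : Prop := ∀ (Ω : Type) [MeasurableSpace Ω] (P : Measure Ω), IsProbabilityMeasure P →
  ∀ (δ ρ : ℝ) (μ : Measure (ℝ × ℝ)) (ξ : ℤ × ℤ → Ω → ℝ × ℝ), IsNoise P δ ρ μ ξ →
    0 ≤ ρ ∧ (∀ R z, Measurable (ind ξ R z)) ∧ (∀ R, iIndepFun (ind ξ R) P) ∧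
    (∀ R z, ∫ ω, ind ξ R z ω ∂P = (noiseLaw δ μ).real (disc R z)) ∧
    ∀ᵐ ω ∂P, (∀ (R : ℝ) (B : ℕ), 0 ≤ R → R + 2 * ρ + 2 ≤ B →
        {z : ℤ × ℤ | ((z.1 : ℝ) + (ξ z ω).1) ^ 2 + ((z.2 : ℝ) + (ξ z ω).2) ^ 2 ≤ R ^ 2}.Finite ∧
        (count (fun z => ξ z ω) R : ℝ) = ∑ z ∈ box B, ind ξ R z ω) ∧
      ∀ (R : ℝ) (z : ℤ × ℤ), 0 ≤ R →
        (Real.sqrt ((z.1 : ℝ) ^ 2 + (z.2 : ℝ) ^ 2) < R - (2 * ρ + 1) → ind ξ R z ω = 1) ∧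
        (R + (2 * ρ + 1) < Real.sqrt ((z.1 : ℝ) ^ 2 + (z.2 : ℝ) ^ 2) → ind ξ R z ω = 0)

/-- The mean and the fluctuations of the number of points. -/
def S_FLUC : Prop := ∀ (Ω : Type) [MeasurableSpace Ω] (P : Measure Ω), IsProbabilityMeasure P →
  ∀ (δ ρ : ℝ) (μ : Measure (ℝ × ℝ)) (ξ : ℤ × ℤ → Ω → ℝ × ℝ), IsNoise P δ ρ μ ξ →
    ∃ (C A c R₀ r : ℝ) (S : ℝ → Finset (ℤ × ℤ)), 0 < C ∧ 0 < A ∧ 0 < c ∧ 0 < r ∧
      (∀ R : ℝ, 1 ≤ R → |∫ ω, (count (fun z => ξ z ω) R : ℝ) ∂P - Real.pi * R ^ 2| ≤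
        C * Real.sqrt R) ∧
      (∀ R : ℝ, 1 ≤ R → ((S R).card : ℝ) ≤ A * R ∧
        (∀ z ∈ S R, |Real.sqrt ((z.1 : ℝ) ^ 2 + (z.2 : ℝ) ^ 2) - R| ≤ r) ∧
        ∀ᵐ ω ∂P, (count (fun z => ξ z ω) R : ℝ) - ∫ ω, (count (fun z => ξ z ω) R : ℝ) ∂P =
          ∑ z ∈ S R, (ind ξ R z ω - ∫ ω, ind ξ R z ω ∂P)) ∧
      (∀ R : ℝ, R₀ ≤ R → c * R ≤ ∑ z ∈ S R, (∫ ω, ind ξ R z ω ∂P) *
        (1 - ∫ ω, ind ξ R z ω ∂P)) ∧
      (∀ R z, Measurable (ind ξ R z)) ∧ (∀ R, iIndepFun (ind ξ R) P) ∧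
      ∀ᵐ ω ∂P, ∀ R R' : ℝ, 0 ≤ R → R ≤ R' →
        count (fun z => ξ z ω) R ≤ count (fun z => ξ z ω) R'

/-- A form of the second Borel-Cantelli lemma. -/
def S_BCL : Prop := ∀ (Ω : Type) [MeasurableSpace Ω] (P : Measure Ω), IsProbabilityMeasure P →
  ∀ (ξ : ℤ × ℤ → Ω → ℝ × ℝ), (∀ z, Measurable (ξ z)) → iIndepFun ξ P →
  ∀ (S : ℕ → Finset (ℤ × ℤ)) (g : ℕ → ℤ × ℤ → ℝ × ℝ → ℝ) (a : ℕ → ℝ),
    (∀ i z, Measurable (g i z)) → (∀ i j, i ≠ j → Disjoint (S i) (S j)) →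
    (∃ i₀ : ℕ, ∀ i ≥ i₀, 1 / Real.sqrt i ≤ P.real {ω | a i ≤ ∑ z ∈ S i, g i z (ξ z ω)}) →
    ∀ᵐ ω ∂P, ∃ᶠ i in atTop, a i ≤ ∑ z ∈ S i, g i z (ξ z ω)

/-- The expectation of the number of points. -/
def S_EXPECT : Prop := ∀ (Ω : Type) [MeasurableSpace Ω] (P : Measure Ω), IsProbabilityMeasure P →
  ∀ (δ ρ : ℝ) (μ : Measure (ℝ × ℝ)) (ξ : ℤ × ℤ → Ω → ℝ × ℝ), IsNoise P δ ρ μ ξ →
    ∃ C : ℝ, ∀ R : ℝ, 1 ≤ R → |∫ ω, (count (fun z => ξ z ω) R : ℝ) ∂P - Real.pi * R ^ 2| ≤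
      C * Real.sqrt R

/-- Almost surely the error is `O((R log R)^(1/2))`. -/
def S_UPP : Prop := ∀ (Ω : Type) [MeasurableSpace Ω] (P : Measure Ω), IsProbabilityMeasure P →
  ∀ (δ ρ : ℝ) (μ : Measure (ℝ × ℝ)) (ξ : ℤ × ℤ → Ω → ℝ × ℝ), IsNoise P δ ρ μ ξ →
    ∃ C : ℝ, ∀ᵐ ω ∂P, ∀ᶠ R : ℝ in atTop,
      |(count (fun z => ξ z ω) R : ℝ) - Real.pi * R ^ 2| ≤ C * Real.sqrt (R * Real.log R)

/-- Almost surely the error is not `o((R log R)^(1/2))`, in both directions. -/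
def S_LOWP : Prop := ∀ (Ω : Type) [MeasurableSpace Ω] (P : Measure Ω), IsProbabilityMeasure P →
  ∀ (δ ρ : ℝ) (μ : Measure (ℝ × ℝ)) (ξ : ℤ × ℤ → Ω → ℝ × ℝ), IsNoise P δ ρ μ ξ →
    ∃ c : ℝ, 0 < c ∧ ∀ᵐ ω ∂P,
      (∃ᶠ n : ℕ in atTop, c * Real.sqrt (n * Real.log n) ≤
        (count (fun z => ξ z ω) n : ℝ) - Real.pi * (n : ℝ) ^ 2) ∧
      ∃ᶠ n : ℕ in atTop, (count (fun z => ξ z ω) n : ℝ) - Real.pi * (n : ℝ) ^ 2 ≤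
        -(c * Real.sqrt (n * Real.log n))

end Pool.Agent.U180.NG
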