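import Mathlib
import Pool.Agent.U180.NG.Stm

/-!
# The Gauss circle problem for slightly displaced lattice points: the sharp constant

Project NG, second part (seat helper180). Statements.
-/

set_option autoImplicit false

open MeasureTheory ProbabilityTheory Filter Topology

namespace Pool.Agent.U180.NG

/-! ### Analysis -/

/-- Sums of the Bernoulli function over intervals of rows of a circle. -/
def S_B2I : Prop := ∃ C : ℝ, 0 < C ∧ ∀ (R y c : ℝ) (m₁ m₂ : ℤ), 1 ≤ R → ⌈-R - y⌉ ≤ m₁ →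
  m₂ ≤ ⌊R - y⌋ → |∑ m ∈ Finset.Icc m₁ m₂, b2 (hl R y m + c)| ≤ C * Real.sqrt R

/-- Sums of the sawtooth function over intervals of rows of a circle. -/
def S_PSI : Prop := ∃ C : ℝ, 0 < C ∧ ∀ (R y c : ℝ) (m₁ m₂ : ℤ), 1 ≤ R → ⌈-R - y⌉ ≤ m₁ →
  m₂ ≤ ⌊R - y⌋ →
  |∑ m ∈ Finset.Icc m₁ m₂, (Int.fract (hl R y m + c) - 1 / 2)| ≤ C * R ^ (3 / 4 : ℝ)

/-- The floors of the ends of the rows of two shifted circles may be dropped. -/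
def S_LFL : Prop := ∀ y y' c c' : ℝ, ∃ C : ℝ, ∀ (R : ℝ) (m₁ m₂ : ℤ), 1 ≤ R →
  -R + |y| + |y'| + 1 ≤ m₁ → (m₂ : ℝ) ≤ R - |y| - |y'| - 1 →
  |∑ m ∈ Finset.Icc m₁ m₂, max 0 ((⌊hl R y m + c⌋ : ℝ) - ⌊hl R y' m + c'⌋) -
    ∑ m ∈ Finset.Icc m₁ m₂, max 0 ((hl R y m + c) - (hl R y' m + c'))| ≤ C * R ^ (3 / 4 : ℝ)

/-- The limit of the sums of the positive parts of the differences of the ends of the rows. -/
def S_LDC : Prop := ∀ y y' d : ℝ, Tendsto (fun R : ℝ =>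
    (∑ m ∈ Finset.Icc ⌈-R + 2 * (|y| + |y'| + 1)⌉ ⌊R - 2 * (|y| + |y'| + 1)⌋,
      max 0 (hl R y m - hl R y' m + d)) / R) atTop
  (𝓝 (∫ s in (-1 : ℝ)..1, max 0 (d - (y - y') * s / Real.sqrt (1 - s ^ 2))))

/-- The mean width of a segment. -/
def S_LINT : Prop := ∀ d w : ℝ,
  (∫ s in (-1 : ℝ)..1, max 0 (d - w * s / Real.sqrt (1 - s ^ 2))) +
    (∫ s in (-1 : ℝ)..1, max 0 (-d - w * s / Real.sqrt (1 - s ^ 2))) =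
  2 * Real.sqrt (d ^ 2 + w ^ 2)

/-- The lattice points `z` for which `z + x` is in the disc of radius `R`, but not `z + x'`. -/
def lune (R : ℝ) (x x' : ℝ × ℝ) : Set (ℤ × ℤ) := {z | x ∈ disc R z ∧ x' ∉ disc R z}

/-- The number of lattice points in a lune. -/
def S_LUNE : Prop := ∀ x x' : ℝ × ℝ, Tendsto (fun R : ℝ => ((lune R x x').ncard : ℝ) / R) atTop
  (𝓝 (2 * Real.sqrt ((x.1 - x'.1) ^ 2 + (x.2 - x'.2) ^ 2)))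

/-! ### Probability -/

/-- The mean distance of two independent points with the law `ν`. -/
noncomputable def spread (ν : Measure (ℝ × ℝ)) : ℝ :=
  ∫ x, ∫ x', Real.sqrt ((x.1 - x'.1) ^ 2 + (x.2 - x'.2) ^ 2) ∂ν ∂ν

/-- Asymptotics of the variance. -/
def S_VAS : Prop := ∀ (δ ρ : ℝ) (μ : Measure (ℝ × ℝ)), 0 < δ → δ ≤ 1 → IsProbabilityMeasure μ →
  (∀ᵐ y ∂μ, |y.1| ≤ ρ ∧ |y.2| ≤ ρ) → 0 < spread (noiseLaw δ μ) ∧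
    Tendsto (fun R : ℝ => (∑ z ∈ box ⌈R + 2 * ρ + 2⌉₊, (noiseLaw δ μ).real (disc R z) *
      (1 - (noiseLaw δ μ).real (disc R z))) / R) atTop (𝓝 (2 * spread (noiseLaw δ μ)))

/-- The moment generating function of a centred Bernoulli variable. -/
def S_MGF : Prop := ∀ p t : ℝ, 0 ≤ p → p ≤ 1 → |t| ≤ 1 / 4 →
  Real.exp ((1 - 2 * |t|) * (p * (1 - p)) * t ^ 2 / 2) ≤
    p * Real.exp (t * (1 - p)) + (1 - p) * Real.exp (-(t * p)) ∧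
  p * Real.exp (t * (1 - p)) + (1 - p) * Real.exp (-(t * p)) ≤
    Real.exp ((1 + 2 * |t|) * (p * (1 - p)) * t ^ 2 / 2)

/-- The moment generating function of a sum of independent centred indicator functions. -/
def S_SMGF : Prop := ∀ (Ω ι : Type) [MeasurableSpace Ω] (P : Measure Ω), IsProbabilityMeasure P →
  ∀ (X : ι → Ω → ℝ) (S : Finset ι), (∀ i, Measurable (X i)) → iIndepFun X P →
    (∀ i ω, X i ω = 0 ∨ X i ω = 1) → ∀ t : ℝ, |t| ≤ 1 / 4 →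
    Real.exp ((1 - 2 * |t|) * (∑ i ∈ S, (∫ ω, X i ω ∂P) * (1 - ∫ ω, X i ω ∂P)) * t ^ 2 / 2) ≤
      ∫ ω, Real.exp (t * ∑ i ∈ S, (X i ω - ∫ ω, X i ω ∂P)) ∂P ∧
    ∫ ω, Real.exp (t * ∑ i ∈ S, (X i ω - ∫ ω, X i ω ∂P)) ∂P ≤
      Real.exp ((1 + 2 * |t|) * (∑ i ∈ S, (∫ ω, X i ω ∂P) * (1 - ∫ ω, X i ω ∂P)) * t ^ 2 / 2)

/-- Upper bound of the tails (Bernstein). -/
def S_TU : Prop := ∀ (Ω ι : Type) [MeasurableSpace Ω] (P : Measure Ω), IsProbabilityMeasure P →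
  ∀ (X : ι → Ω → ℝ) (S : Finset ι) (W t : ℝ), (∀ i, Measurable (X i)) → iIndepFun X P →
    (∀ i ω, X i ω = 0 ∨ X i ω = 1) → 0 < W →
    ∑ i ∈ S, (∫ ω, X i ω ∂P) * (1 - ∫ ω, X i ω ∂P) ≤ W → 0 ≤ t → t ≤ W / 4 →
    P.real {ω | t ≤ |∑ i ∈ S, (X i ω - ∫ ω, X i ω ∂P)|} ≤
      2 * Real.exp (-((1 - 2 * t / W) * t ^ 2 / (2 * W)))

/-- Lower bound of the tails (Kolmogorov). -/
def S_TL : Prop := ∀ ε : ℝ, 0 < ε → ε < 1 / 4 → ∃ x₀ η : ℝ, 0 < x₀ ∧ 0 < η ∧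
  ∀ (Ω ι : Type) [MeasurableSpace Ω] (P : Measure Ω), IsProbabilityMeasure P →
  ∀ (X : ι → Ω → ℝ) (S : Finset ι) (x V : ℝ), (∀ i, Measurable (X i)) → iIndepFun X P →
    (∀ i ω, X i ω = 0 ∨ X i ω = 1) → V = ∑ i ∈ S, (∫ ω, X i ω ∂P) * (1 - ∫ ω, X i ω ∂P) →
    x₀ ≤ x → x ≤ η * Real.sqrt V →
    Real.exp (-((1 + 4 * ε) * x ^ 2 / 2)) ≤
      P.real {ω | (1 - ε) * x * Real.sqrt V ≤ ∑ i ∈ S, (X i ω - ∫ ω, X i ω ∂P)} ∧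
    Real.exp (-((1 + 4 * ε) * x ^ 2 / 2)) ≤
      P.real {ω | ∑ i ∈ S, (X i ω - ∫ ω, X i ω ∂P) ≤ -((1 - ε) * x * Real.sqrt V)}

/-- The second Borel-Cantelli lemma for functions of disjoint blocks. -/
def S_BCL2 : Prop := ∀ (Ω : Type) [MeasurableSpace Ω] (P : Measure Ω), IsProbabilityMeasure P →
  ∀ (ξ : ℤ × ℤ → Ω → ℝ × ℝ), (∀ z, Measurable (ξ z)) → iIndepFun ξ P →
  ∀ (S : ℕ → Finset (ℤ × ℤ)) (g : ℕ → ℤ × ℤ → ℝ × ℝ → ℝ) (a : ℕ → ℝ) (s : ℝ),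
    (∀ i z, Measurable (g i z)) → (∀ i j, i ≠ j → Disjoint (S i) (S j)) → 0 < s → s < 1 →
    (∃ (b : ℝ) (i₀ : ℕ), 0 < b ∧
      ∀ i ≥ i₀, b * (i : ℝ) ^ (-s) ≤ P.real {ω | a i ≤ ∑ z ∈ S i, g i z (ξ z ω)}) →
    ∀ᵐ ω ∂P, ∃ᶠ i in atTop, a i ≤ ∑ z ∈ S i, g i z (ξ z ω)

/-- The mean and the fluctuations of the number of points, with the asymptotics of the variance. -/
def S_FLUC2 : Prop := ∀ (Ω : Type) [MeasurableSpace Ω] (P : Measure Ω), IsProbabilityMeasure P →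
  ∀ (δ ρ : ℝ) (μ : Measure (ℝ × ℝ)) (ξ : ℤ × ℤ → Ω → ℝ × ℝ), IsNoise P δ ρ μ ξ →
    ∃ (C r : ℝ) (S : ℝ → Finset (ℤ × ℤ)), 0 < C ∧ 0 < r ∧
      0 < spread (noiseLaw δ μ) ∧
      (∀ R : ℝ, 1 ≤ R → |∫ ω, (count (fun z => ξ z ω) R : ℝ) ∂P - Real.pi * R ^ 2| ≤
        C * Real.sqrt R) ∧
      (∀ R : ℝ, 1 ≤ R → (∀ z ∈ S R, |Real.sqrt ((z.1 : ℝ) ^ 2 + (z.2 : ℝ) ^ 2) - R| ≤ r) ∧
        ∀ᵐ ω ∂P, (count (fun z => ξ z ω) R : ℝ) - ∫ ω, (count (fun z => ξ z ω) R : ℝ) ∂P =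
          ∑ z ∈ S R, (ind ξ R z ω - ∫ ω, ind ξ R z ω ∂P)) ∧
      Tendsto (fun R : ℝ => (∑ z ∈ S R, (∫ ω, ind ξ R z ω ∂P) *
        (1 - ∫ ω, ind ξ R z ω ∂P)) / R) atTop (𝓝 (2 * spread (noiseLaw δ μ))) ∧
      (∀ R z, Measurable (ind ξ R z)) ∧ (∀ R, iIndepFun (ind ξ R) P) ∧
      ∀ᵐ ω ∂P, ∀ R R' : ℝ, 0 ≤ R → R ≤ R' →
        count (fun z => ξ z ω) R ≤ count (fun z => ξ z ω) R'

/-- Tails of the increments of the number of points. -/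
def S_INC : Prop := ∀ (Ω : Type) [MeasurableSpace Ω] (P : Measure Ω), IsProbabilityMeasure P →
  ∀ (δ ρ : ℝ) (μ : Measure (ℝ × ℝ)) (ξ : ℤ × ℤ → Ω → ℝ × ℝ), IsNoise P δ ρ μ ξ →
    ∀ R R' W t : ℝ, 0 ≤ R → R ≤ R' →
      ∫ ω, (count (fun z => ξ z ω) R' : ℝ) ∂P - ∫ ω, (count (fun z => ξ z ω) R : ℝ) ∂P ≤ W →
      0 < W → 0 ≤ t → t ≤ W / 4 →
      P.real {ω | t ≤ |((count (fun z => ξ z ω) R' : ℝ) - count (fun z => ξ z ω) R) -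
        (∫ ω, (count (fun z => ξ z ω) R' : ℝ) ∂P - ∫ ω, (count (fun z => ξ z ω) R : ℝ) ∂P)|} ≤
      2 * Real.exp (-((1 - 2 * t / W) * t ^ 2 / (2 * W)))

/-- Almost surely the upper limit of the normalized error is at most `2 (spread)^(1/2)`. -/
def S_UPP2 : Prop := ∀ (Ω : Type) [MeasurableSpace Ω] (P : Measure Ω), IsProbabilityMeasure P →
  ∀ (δ ρ : ℝ) (μ : Measure (ℝ × ℝ)) (ξ : ℤ × ℤ → Ω → ℝ × ℝ), IsNoise P δ ρ μ ξ →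
    ∀ c : ℝ, 2 * Real.sqrt (spread (noiseLaw δ μ)) < c → ∀ᵐ ω ∂P, ∀ᶠ R : ℝ in atTop,
      |(count (fun z => ξ z ω) R : ℝ) - Real.pi * R ^ 2| ≤ c * Real.sqrt (R * Real.log R)

/-- Almost surely the upper and lower limits of the normalized error are at least
`2 (spread)^(1/2)` in absolute value. -/
def S_LOWP2 : Prop := ∀ (Ω : Type) [MeasurableSpace Ω] (P : Measure Ω), IsProbabilityMeasure P →
  ∀ (δ ρ : ℝ) (μ : Measure (ℝ × ℝ)) (ξ : ℤ × ℤ → Ω → ℝ × ℝ), IsNoise P δ ρ μ ξ →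
    ∀ c : ℝ, 0 < c → c < 2 * Real.sqrt (spread (noiseLaw δ μ)) → ∀ᵐ ω ∂P,
      (∃ᶠ n : ℕ in atTop, c * Real.sqrt (n * Real.log n) ≤
        (count (fun z => ξ z ω) n : ℝ) - Real.pi * (n : ℝ) ^ 2) ∧
      ∃ᶠ n : ℕ in atTop, (count (fun z => ξ z ω) n : ℝ) - Real.pi * (n : ℝ) ^ 2 ≤
        -(c * Real.sqrt (n * Real.log n))

end Pool.Agent.U180.NG
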