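import Pool.Agent.U180.NG.Stm

/-! Project NG: the assembly. -/

set_option autoImplicit false

open MeasureTheory ProbabilityTheory Filter Topology

namespace Pool.Agent.U180.NG

theorem t_EXPECT (h : S_FLUC) : S_EXPECT := by
  intro Ω _ P hP δ ρ μ ξ hξ
  obtain ⟨C, A, c, R₀, r, S, -, -, -, -, h1, -⟩ := h Ω P hP δ ρ μ ξ hξ
  exact ⟨C, h1⟩

/-- The final theorem from the packages. -/
theorem final
    (VDC : S_VDC) (BLK : S_VDC → S_BLK) (HALF : S_BLK → S_HALF) (EXP : S_HALF → S_EXP)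
    (B2 : S_EXP → S_B2) (EM : S_EM) (ROWF : S_ROWF) (PHI : S_PHI)
    (MEANY : S_B2 → S_EM → S_ROWF → S_PHI → S_MEANY) (TENT : S_TENT)
    (VARY : S_B2 → S_PHI → S_TENT → S_VARY) (ANN : S_EM → S_ANN) (PZ : S_PZ)
    (MEANP : S_MEANY → S_PZ → S_MEANP) (VARP : S_VARY → S_PZ → S_PHI → S_VARP)
    (LOWA : S_LOWA) (LOW : S_LOWA → S_LOW) (HOEF : S_HOEF) (CNT : S_PZ → S_CNT)
    (FLUC : S_CNT → S_MEANP → S_VARP → S_ANN → S_FLUC) (BCL : S_BCL)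
    (UPP : S_FLUC → S_HOEF → S_UPP) (LOWP : S_FLUC → S_LOW → S_BCL → S_LOWP)
    (Ω : Type) [MeasurableSpace Ω] (P : Measure Ω) (hP : IsProbabilityMeasure P)
    (δ ρ : ℝ) (μ : Measure (ℝ × ℝ)) (ξ : ℤ × ℤ → Ω → ℝ × ℝ) (h : IsNoise P δ ρ μ ξ) :
    ∃ C c : ℝ, 0 < c ∧
      (∀ R : ℝ, 1 ≤ R → |∫ ω, (count (fun z => ξ z ω) R : ℝ) ∂P - Real.pi * R ^ 2| ≤
        C * Real.sqrt R) ∧
      ∀ᵐ ω ∂P,
        (∀ᶠ R : ℝ in atTop, |(count (fun z => ξ z ω) R : ℝ) - Real.pi * R ^ 2| ≤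
          C * Real.sqrt (R * Real.log R)) ∧
        (∃ᶠ n : ℕ in atTop, c * Real.sqrt (n * Real.log n) ≤
          (count (fun z => ξ z ω) n : ℝ) - Real.pi * (n : ℝ) ^ 2) ∧
        ∃ᶠ n : ℕ in atTop, (count (fun z => ξ z ω) n : ℝ) - Real.pi * (n : ℝ) ^ 2 ≤
          -(c * Real.sqrt (n * Real.log n)) := by
  have hB2 := B2 (EXP (HALF (BLK VDC)))
  have hF : S_FLUC := FLUC (CNT PZ) (MEANP (MEANY hB2 EM ROWF PHI) PZ)
    (VARP (VARY hB2 PHI TENT) PZ PHI) (ANN EM)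
  obtain ⟨C1, h1⟩ := t_EXPECT hF Ω P hP δ ρ μ ξ h
  obtain ⟨C2, h2⟩ := UPP hF HOEF Ω P hP δ ρ μ ξ h
  obtain ⟨c, hc, h3⟩ := LOWP hF (LOW LOWA) BCL Ω P hP δ ρ μ ξ h
  refine ⟨max C1 C2, c, hc, fun R hR => (h1 R hR).trans
    (mul_le_mul_of_nonneg_right (le_max_left _ _) (Real.sqrt_nonneg _)), ?_⟩
  filter_upwards [h2, h3] with ω h2 h3
  refine ⟨?_, h3⟩
  filter_upwards [h2] with R h2
  exact h2.trans (mul_le_mul_of_nonneg_right (le_max_right _ _) (Real.sqrt_nonneg _))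

end Pool.Agent.U180.NG
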