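import Pool.Agent.U180.NG.Stm2

/-! Project NG, second part: the assembly. -/

set_option autoImplicit false

open MeasureTheory ProbabilityTheory Filter Topology

namespace Pool.Agent.U180.NG

/-- The final theorem from the packages. -/
theorem final2
    (VDC : S_VDC) (BLK : S_VDC → S_BLK) (HALF : S_BLK → S_HALF) (EXP : S_HALF → S_EXP)
    (B2 : S_EXP → S_B2) (EM : S_EM) (ROWF : S_ROWF) (PHI : S_PHI)
    (MEANY : S_B2 → S_EM → S_ROWF → S_PHI → S_MEANY) (ANN : S_EM → S_ANN) (PZ : S_PZ)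
    (MEANP : S_MEANY → S_PZ → S_MEANP) (CNT : S_PZ → S_CNT)
    (B2I : S_HALF → S_B2I) (PSI : S_B2I → S_PSI) (LFL : S_PSI → S_LFL) (LDC : S_LDC)
    (LINT : S_LINT) (LUNE : S_LFL → S_LDC → S_LINT → S_LUNE)
    (VAS : S_LUNE → S_ANN → S_PZ → S_VAS) (MGF : S_MGF) (SMGF : S_MGF → S_SMGF)
    (TU : S_SMGF → S_TU) (TL : S_SMGF → S_TL) (BCL2 : S_BCL2)
    (FLUC2 : S_CNT → S_MEANP → S_VAS → S_FLUC2) (INC : S_CNT → S_TU → S_INC)
    (UPP2 : S_FLUC2 → S_TU → S_INC → S_UPP2) (LOWP2 : S_FLUC2 → S_TL → S_BCL2 → S_LOWP2)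
    (Ω : Type) [MeasurableSpace Ω] (P : Measure Ω) (hP : IsProbabilityMeasure P)
    (δ ρ : ℝ) (μ : Measure (ℝ × ℝ)) (ξ : ℤ × ℤ → Ω → ℝ × ℝ) (h : IsNoise P δ ρ μ ξ) :
    (∃ C : ℝ, ∀ R : ℝ, 1 ≤ R →
      |∫ ω, (count (fun z => ξ z ω) R : ℝ) ∂P - Real.pi * R ^ 2| ≤ C * Real.sqrt R) ∧
      0 < spread (noiseLaw δ μ) ∧
      ∀ᵐ ω ∂P, ∀ ε : ℝ, 0 < ε →
        (∀ᶠ R : ℝ in atTop, |(count (fun z => ξ z ω) R : ℝ) - Real.pi * R ^ 2| ≤
          (2 * Real.sqrt (spread (noiseLaw δ μ)) + ε) * Real.sqrt (R * Real.log R)) ∧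
        (∃ᶠ n : ℕ in atTop, (2 * Real.sqrt (spread (noiseLaw δ μ)) - ε) *
          Real.sqrt (n * Real.log n) ≤
            (count (fun z => ξ z ω) n : ℝ) - Real.pi * (n : ℝ) ^ 2) ∧
        ∃ᶠ n : ℕ in atTop, (count (fun z => ξ z ω) n : ℝ) - Real.pi * (n : ℝ) ^ 2 ≤
          -((2 * Real.sqrt (spread (noiseLaw δ μ)) - ε) * Real.sqrt (n * Real.log n)) := by
  have hH := HALF (BLK VDC)
  have hB2 := B2 (EXP hH)
  have hA := ANN EM
  have hC := CNT PZ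
  have hT := TU (SMGF MGF)
  have hF : S_FLUC2 := FLUC2 hC (MEANP (MEANY hB2 EM ROWF PHI) PZ)
    (VAS (LUNE (LFL (PSI (B2I hH))) LDC LINT) hA PZ)
  have hU := UPP2 hF hT (INC hC hT) Ω P hP δ ρ μ ξ h
  have hL := LOWP2 hF (TL (SMGF MGF)) BCL2 Ω P hP δ ρ μ ξ h
  obtain ⟨C1, r, S, -, -, hs, h1, -⟩ := hF Ω P hP δ ρ μ ξ h
  refine ⟨⟨C1, h1⟩, hs, ?_⟩
  set κ := 2 * Real.sqrt (spread (noiseLaw δ μ)) with hκ
  have hκ0 : 0 < κ := by positivity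
  have hU' : ∀ᵐ ω ∂P, ∀ k : ℕ, ∀ᶠ R : ℝ in atTop,
      |(count (fun z => ξ z ω) R : ℝ) - Real.pi * R ^ 2| ≤ (κ + 1 / (k + 1)) *
        Real.sqrt (R * Real.log R) :=
    ae_all_iff.2 fun k => hU _ (by have : (0 : ℝ) < 1 / (k + 1) := by positivity
                                   linarith)
  have hL' : ∀ᵐ ω ∂P, ∀ k : ℕ, 1 / ((k : ℝ) + 1) < κ →
      (∃ᶠ n : ℕ in atTop, (κ - 1 / (k + 1)) * Real.sqrt (n * Real.log n) ≤
        (count (fun z => ξ z ω) n : ℝ) - Real.pi * (n : ℝ) ^ 2) ∧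
      ∃ᶠ n : ℕ in atTop, (count (fun z => ξ z ω) n : ℝ) - Real.pi * (n : ℝ) ^ 2 ≤
        -((κ - 1 / (k + 1)) * Real.sqrt (n * Real.log n)) := by
    refine ae_all_iff.2 fun k => ?_
    by_cases hk : 1 / ((k : ℝ) + 1) < κ
    · have := hL (κ - 1 / (k + 1)) (by linarith)
        (by have : (0 : ℝ) < 1 / (k + 1) := by positivity
            linarith)
      filter_upwards [this] with ω hω _ using hω
    · exact Filter.Eventually.of_forall fun ω h => absurd h hk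
  filter_upwards [hU', hL'] with ω hU hL ε hε
  obtain ⟨k, hk⟩ := exists_nat_one_div_lt (lt_min hε hκ0)
  have hk1 : 1 / ((k : ℝ) + 1) < ε := hk.trans_le (min_le_left _ _)
  have hk2 : 1 / ((k : ℝ) + 1) < κ := hk.trans_le (min_le_right _ _)
  refine ⟨?_, ?_, ?_⟩
  · filter_upwards [hU k] with R hR
    exact hR.trans (mul_le_mul_of_nonneg_right (by linarith) (Real.sqrt_nonneg _))
  · refine (hL k hk2).1.mono fun n hn => le_trans ?_ hn
    exact mul_le_mul_of_nonneg_right (by linarith) (Real.sqrt_nonneg _)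
  · refine (hL k hk2).2.mono fun n hn => hn.trans ?_
    exact neg_le_neg (mul_le_mul_of_nonneg_right (by linarith) (Real.sqrt_nonneg _))

end Pool.Agent.U180.NG
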